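import Mathlib
import Pool.Agent.W912.KA.Asym

set_option autoImplicit false

/-!
# Almost all monotone graph properties are evasive (MP_257582_lc)

Among the non-trivial isomorphism-invariant monotone properties of graphs on `n` vertices the
proportion of non-evasive ones is at most `2 ^ (- (1/4 - o(1)) n^2)`; an explicit inequality holds
for every `n ≥ 2`.

Proof. A non-evasive property has Euler characteristic `∑_{G ∈ P} (-1)^{e(G)} = 0`. Work with
up-sets of the set of isomorphism classes. For a fixed number `k` of edges the classes that can be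
added or removed freely (free classes) contribute with weights of the same sign, so by Sperner's
theorem the Euler characteristic vanishes for a proportion at most `1 / √m` of the choices on `m`
free classes. A property with few free classes for every `k` has few minimal graphs, and there are
few such properties, since there are at least `2 ^ (C(N, N/2) / n!)` properties, `N = C(n, 2)`.
-/

namespace Pool.Agent.Results.MP_257582_lc.AlmostAll

/-- The isomorphism-invariant monotone properties of graphs on `Fin n` that are non-trivial. -/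
def Properties (n : ℕ) : Set (SimpleGraph (Fin n) → Prop) :=
  {P | (∀ G H : SimpleGraph (Fin n), G ≤ H → P G → P H) ∧
    (∀ (σ : Fin n ≃ Fin n) (G : SimpleGraph (Fin n)), P G → P (G.map σ.toEmbedding)) ∧
    (∃ G, P G) ∧ ∃ G, ¬ P G}

/-- `P` is evasive, in the form of the frozen statement of the problem: for every adaptive
strategy `s` (next query as a function of the queries made and of the answers to them) there are
two graphs, one with and one without the property, which agree on the first `C(n,2) - 1` queries. -/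
def Evasive (n : ℕ) (P : SimpleGraph (Fin n) → Prop) : Prop :=
  ∀ s : Finset (Sym2 (Fin n)) → SimpleGraph (Fin n) → Sym2 (Fin n),
    (∀ (Q : Finset (Sym2 (Fin n))) (G H : SimpleGraph (Fin n)),
        (∀ e ∈ Q, (e ∈ G.edgeSet ↔ e ∈ H.edgeSet)) → s Q G = s Q H) →
    ∃ G H : SimpleGraph (Fin n),
      (∀ e ∈ (fun Q : Finset (Sym2 (Fin n)) => insert (s Q G) Q)^[n.choose 2 - 1]
            (∅ : Finset (Sym2 (Fin n))),
          (e ∈ G.edgeSet ↔ e ∈ H.edgeSet)) ∧ P G ∧ ¬ P H

/-- **Almost all monotone graph properties are evasive.** For every `n ≥ 2`, with `N = C(n,2)`,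
the number of non-evasive properties is at most `9 (N+1)^(5/2) √(n!) 2^(-N/2)` times the number of
all properties; in particular for every `ε > 0` the proportion of non-evasive properties is at
most `2 ^ (-(1/4 - ε) n²)` for all large `n`. -/
theorem result :
    (∀ n : ℕ, 2 ≤ n →
      {P | P ∈ Properties n ∧ ¬ Evasive n P}.ncard ^ 2 * 2 ^ n.choose 2 ≤
        81 * (n.choose 2 + 1) ^ 5 * n.factorial * (Properties n).ncard ^ 2) ∧
    ∀ ε : ℝ, 0 < ε → ∃ n₀ : ℕ, ∀ n : ℕ, n₀ ≤ n →
      ({P | P ∈ Properties n ∧ ¬ Evasive n P}.ncard : ℝ) ≤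
        (2 : ℝ) ^ (-(1 / 4 - ε) * (n : ℝ) ^ 2) * (Properties n).ncard := by
  classical
  have hP : ∀ n, Properties n = {P | P ∈ W912.KA.MI n ∧ W912.KA.NT n P} := by
    intro n
    ext P
    exact ⟨fun h => ⟨⟨h.1, h.2.1⟩, h.2.2⟩, fun h => ⟨h.1.1, h.1.2, h.2⟩⟩
  have hE : ∀ n, {P | P ∈ Properties n ∧ ¬ Evasive n P} =
      {P | (P ∈ W912.KA.MI n ∧ W912.KA.NT n P) ∧ ¬ W912.KA.Ev n P} := by
    intro n
    rw [hP]
    rfl
  constructor
  · intro n hn
    rw [hE, hP]
    have h1 := W912.KA.main_sq hn
    have h2 := W912.KA.MI_nt n hn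
    have h3 : {P | (P ∈ W912.KA.MI n ∧ W912.KA.NT n P) ∧ ¬ W912.KA.Ev n P}.ncard ≤
        {P | P ∈ W912.KA.MI n ∧ ¬ W912.KA.Ev n P}.ncard := by
      apply Set.ncard_le_ncard _ (Set.toFinite _)
      rintro P ⟨⟨h1, -⟩, h2⟩
      exact ⟨h1, h2⟩
    calc _ ≤ {P | P ∈ W912.KA.MI n ∧ ¬ W912.KA.Ev n P}.ncard ^ 2 * 2 ^ n.choose 2 :=
          Nat.mul_le_mul_right _ (Nat.pow_le_pow_left h3 2)
      _ ≤ 9 * (n.choose 2 + 1) ^ 5 * n.factorial * (W912.KA.MI n).ncard ^ 2 := h1
      _ ≤ 9 * (n.choose 2 + 1) ^ 5 * n.factorial *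
          (3 * {P | P ∈ W912.KA.MI n ∧ W912.KA.NT n P}.ncard) ^ 2 :=
          Nat.mul_le_mul_left _ (Nat.pow_le_pow_left h2 2)
      _ = _ := by ring
  · intro ε hε
    obtain ⟨n₀, h⟩ := W912.KA.asym ε hε
    refine ⟨n₀, fun n hn => ?_⟩
    rw [hE, hP]
    exact h n hn

end Pool.Agent.Results.MP_257582_lc.AlmostAll
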