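import Mathlib
import Pool.Agent.W332.Kc.Cone

set_option autoImplicit false

/-!
# Evasiveness of k-edge-connectivity and of cone degree properties (MP_257582_lc)

`Cone K` is the graph `K` together with one further vertex joined to all its vertices. Let `P` be a
monotone isomorphism-invariant property of graphs on `n + 1` vertices (`n` arbitrary, no prime power
restriction) such that graphs with an isolated vertex do not have `P`, some graph has `P`, the star
does not have `P`, and for vertex-transitive graphs `K` on `n` vertices membership of `Cone K`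
depends only on the degree of `K`. Then `P` is evasive.

The edge connectivity of the cone over every `d`-regular graph is `d + 1`. Hence for all
`2 ≤ k < N` the property of being `k`-edge-connected, for graphs on `N` vertices, is evasive.

Proof.  By `threshold` membership of `Cone K` is given by a threshold for the degree of `K`. Let `G`
be a transitive group of permutations of the `n` vertices of `K` that is an extension of a `p`-group
by a cyclic group; let `G` act on `n + 1` points with one fixed point. Its orbits of pairs are the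
star and the orbits of pairs on the `n` points. If `P` is not evasive, then the Euler characteristic
of the complex of `G`-invariant non-members is 1. Invariant graphs that do not contain the star have
an isolated vertex, so they are non-members and cancel; the others are cones over invariant graphs.
So the alternating sum over the invariant graphs `K` for which `Cone K` has `P` vanishes, and the
arithmetic of `RegularDegrees` (cyclic groups, `Z_2 × Z_(n/2)`, wreath products) applies to `n`.
-/

namespace Pool.Agent.Results.MP_257582_lc.ConeDegrees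

/-- Every decision strategy `s` (the next pair to be queried depends only on the answers to the
queries made so far) needs all `N.choose 2` queries: there are two graphs that agree on the first
`N.choose 2 - 1` queried pairs, one with and one without `P`. -/
def Evasive {N : ℕ} (P : SimpleGraph (Fin N) → Prop) : Prop :=
  ∀ s : Finset (Sym2 (Fin N)) → SimpleGraph (Fin N) → Sym2 (Fin N),
    (∀ (Q : Finset (Sym2 (Fin N))) (G H : SimpleGraph (Fin N)),
        (∀ e ∈ Q, (e ∈ G.edgeSet ↔ e ∈ H.edgeSet)) → s Q G = s Q H) →
    ∃ G H : SimpleGraph (Fin N),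
      (∀ e ∈ (fun Q : Finset (Sym2 (Fin N)) => insert (s Q G) Q)^[N.choose 2 - 1]
            (∅ : Finset (Sym2 (Fin N))),
          (e ∈ G.edgeSet ↔ e ∈ H.edgeSet)) ∧ P G ∧ ¬ P H

/-- Any two vertices are exchanged by an automorphism. -/
def VertexTransitive {n : ℕ} (G : SimpleGraph (Fin n)) : Prop :=
  ∀ u v : Fin n, ∃ φ : G ≃g G, φ u = v

/-- Every vertex has exactly `d` neighbours. -/
def RegularOfDegree {n : ℕ} (G : SimpleGraph (Fin n)) (d : ℕ) : Prop :=
  ∀ v : Fin n, (G.neighborSet v).ncard = d

/-- The cone over `K`: the vertices of `K` (as `0, …, n - 1`) and the vertex `n`, joined to all of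
them. -/
def Cone {n : ℕ} (K : SimpleGraph (Fin n)) : SimpleGraph (Fin (n + 1)) where
  Adj u v := u ≠ v ∧ ∀ x y : Fin n, u = x.castSucc → v = y.castSucc → K.Adj x y
  symm := ⟨fun _ _ h => ⟨h.1.symm, fun x y hx hy => (h.2 y x hy hx).symm⟩⟩
  loopless := ⟨fun _ h => h.1 rfl⟩

open Pool.Agent.W332.Kc in
theorem cone_eq_map {n : ℕ} (K : SimpleGraph (Fin n)) :
    Cone K = (coneO K).map (finSuccEquivLast (n := n)).symm.toEmbedding := by
  ext u v
  rw [SimpleGraph.map_adj]
  constructor
  · rintro ⟨h1, h2⟩
    refine ⟨finSuccEquivLast u, finSuccEquivLast v, ⟨?_, ?_⟩, by simp, by simp⟩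
    · intro h
      exact h1 (finSuccEquivLast.injective h)
    · intro x y hx hy
      refine h2 x y ?_ ?_
      · rw [← finSuccEquivLast_symm_some, ← hx, Equiv.symm_apply_apply]
      · rw [← finSuccEquivLast_symm_some, ← hy, Equiv.symm_apply_apply]
  · rintro ⟨u', v', ⟨h1, h2⟩, rfl, rfl⟩
    refine ⟨fun h => h1 (finSuccEquivLast.symm.injective h), ?_⟩
    intro x y hx hy
    refine h2 x y ?_ ?_
    · apply finSuccEquivLast.symm.injective
      rw [finSuccEquivLast_symm_some]
      exact hx
    · apply finSuccEquivLast.symm.injective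
      rw [finSuccEquivLast_symm_some]
      exact hy

open Pool.Agent.W332.Kc in
theorem PV_cone {n : ℕ} {P : SimpleGraph (Fin (n + 1)) → Prop}
    (hiso : ∀ (σ : Fin (n + 1) ≃ Fin (n + 1)) (G : SimpleGraph (Fin (n + 1))),
      P G → P (G.map σ.toEmbedding)) (K : SimpleGraph (Fin n)) :
    Pool.Agent.H119R2.Kp.PV P (Option (Fin n)) (coneO K) ↔ P (Cone K) := by
  constructor
  · rintro ⟨e, he⟩
    have h1 := hiso (e.symm.trans (finSuccEquivLast (n := n)).symm) _ he
    rw [SimpleGraph.map_map] at h1
    rw [cone_eq_map]
    have h2 : (⇑(e.symm.trans (finSuccEquivLast (n := n)).symm).toEmbedding ∘ ⇑e.toEmbedding) =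
        ⇑(finSuccEquivLast (n := n)).symm.toEmbedding := by
      funext x
      change (finSuccEquivLast (n := n)).symm (e.symm (e x)) = _
      rw [Equiv.symm_apply_apply]
      rfl
    rw [h2] at h1
    exact h1
  · intro h
    rw [cone_eq_map] at h
    exact ⟨_, h⟩

theorem cone_nbr {n : ℕ} (K : SimpleGraph (Fin n)) (x : Fin n) :
    (Cone K).neighborSet x.castSucc = insert (Fin.last n) (Fin.castSucc '' K.neighborSet x) := by
  ext w
  rw [SimpleGraph.mem_neighborSet, Set.mem_insert_iff]
  constructor
  · rintro ⟨h1, h2⟩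
    rcases Fin.eq_castSucc_or_eq_last w with ⟨y, rfl⟩ | h
    · exact Or.inr ⟨y, h2 x y rfl rfl, rfl⟩
    · exact Or.inl h
  · rintro (rfl | ⟨y, hy, rfl⟩)
    · refine ⟨(Fin.castSucc_lt_last x).ne, fun a b _ hb => ?_⟩
      exact absurd hb.symm (Fin.castSucc_lt_last b).ne
    · refine ⟨fun h => ?_, fun a b ha hb => ?_⟩
      · have := Fin.castSucc_injective n h
        subst this
        exact K.loopless.irrefl _ hy
      · rw [← Fin.castSucc_injective n ha, ← Fin.castSucc_injective n hb]
        exact hy

theorem cone_deg {n d : ℕ} (K : SimpleGraph (Fin n)) (hK : RegularOfDegree K d) (x : Fin n) :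
    ((Cone K).neighborSet x.castSucc).ncard = d + 1 := by
  rw [cone_nbr, Set.ncard_insert_of_notMem, Set.ncard_image_of_injective _ (Fin.castSucc_injective n),
    hK x]
  rintro ⟨y, -, hy⟩
  exact (Fin.castSucc_lt_last y).ne hy

/-- The edge connectivity of the cone over a `d`-regular graph is `d + 1`. -/
theorem edge_cone {n k d : ℕ} (hn : 1 ≤ n) (K : SimpleGraph (Fin n)) (hK : RegularOfDegree K d) :
    (Cone K).IsEdgeConnected k ↔ k ≤ d + 1 := by
  classical
  constructor
  · intro h
    have : Nontrivial (Fin (n + 1)) := Fin.nontrivial_iff_two_le.2 (by omega)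
    have h1 := h.le_degree (u := (⟨0, hn⟩ : Fin n).castSucc)
    rw [← SimpleGraph.card_neighborSet_eq_degree, ← Nat.card_eq_fintype_card] at h1
    have h2 := cone_deg K hK ⟨0, hn⟩
    rw [← Nat.card_coe_set_eq] at h2
    rwa [h2] at h1
  · intro hk
    have key : ∀ x : Fin n, (Cone K).IsEdgeReachable k x.castSucc (Fin.last n) := by
      intro x
      refine SimpleGraph.IsEdgeReachable.anti hk ?_
      intro s hs
      by_contra hcon
      have hadj : ∀ w ∈ (Cone K).neighborSet x.castSucc, s(x.castSucc, w) ∉ s →
          ((Cone K).deleteEdges s).Adj x.castSucc w := by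
        intro w hw hw'
        rw [SimpleGraph.deleteEdges_adj]
        exact ⟨hw, hw'⟩
      have hlast : s(x.castSucc, Fin.last n) ∈ s := by
        by_contra hx
        refine hcon (hadj _ ?_ hx).reachable
        rw [cone_nbr]
        exact Set.mem_insert _ _
      set g : Fin (n + 1) → Sym2 (Fin (n + 1)) :=
        fun w => if s(x.castSucc, w) ∈ s then s(x.castSucc, w) else s(w, Fin.last n) with hg
      have hmaps : Set.MapsTo g ((Cone K).neighborSet x.castSucc) s := by
        intro w hw
        change (if s(x.castSucc, w) ∈ s then s(x.castSucc, w) else s(w, Fin.last n)) ∈ s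
        split_ifs with h1
        · exact h1
        · by_contra h2
          apply hcon
          have h3 := (hadj w hw h1).reachable
          have hw' : w ≠ Fin.last n := by
            rintro rfl
            exact h1 hlast
          have h4 : ((Cone K).deleteEdges s).Adj w (Fin.last n) := by
            rw [SimpleGraph.deleteEdges_adj]
            refine ⟨⟨hw', fun a b _ hb => ?_⟩, h2⟩
            exact absurd hb.symm (Fin.castSucc_lt_last b).ne
          exact h3.trans h4.reachable
      have hinj : Set.InjOn g ((Cone K).neighborSet x.castSucc) := by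
        have hx0 : x.castSucc ≠ Fin.last n := (Fin.castSucc_lt_last x).ne
        have hcross : ∀ w w' : Fin (n + 1), w' ∈ (Cone K).neighborSet x.castSucc →
            s(x.castSucc, w') ∉ s → s(x.castSucc, w) ≠ s(w', Fin.last n) := by
          intro w w' hw' hns heq
          rw [Sym2.eq_iff] at heq
          rcases heq with ⟨h1, -⟩ | ⟨h1, -⟩
          · exact hw'.1 h1
          · exact hx0 h1
        intro w hw w' hw' heq
        change (if s(x.castSucc, w) ∈ s then s(x.castSucc, w) else s(w, Fin.last n)) =
          (if s(x.castSucc, w') ∈ s then s(x.castSucc, w') else s(w', Fin.last n)) at heq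
        split_ifs at heq with h1 h2 h2
        · exact Sym2.congr_right.1 heq
        · exact absurd heq (hcross w w' hw' h2)
        · exact absurd heq.symm (hcross w' w hw h1)
        · exact Sym2.congr_left.1 heq
      have hle := Set.encard_le_encard_of_injOn hmaps hinj
      have h5 : ((Cone K).neighborSet x.castSucc).encard = ((d + 1 : ℕ) : ℕ∞) := by
        rw [← cone_deg K hK x, Set.Finite.cast_ncard_eq (Set.toFinite _)]
      rw [h5] at hle
      exact absurd hs (not_lt.2 hle)
    intro u v
    have key2 : ∀ u : Fin (n + 1), (Cone K).IsEdgeReachable k u (Fin.last n) := by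
      intro u
      rcases Fin.eq_castSucc_or_eq_last u with ⟨y, rfl⟩ | rfl
      · exact key y
      · exact SimpleGraph.IsEdgeReachable.rfl
    exact (key2 u).trans (key2 v).symm

/-- The general theorem. -/
theorem cone_evasive (n : ℕ) (P : SimpleGraph (Fin (n + 1)) → Prop)
    (hmono : ∀ G H : SimpleGraph (Fin (n + 1)), G ≤ H → P G → P H)
    (hiso : ∀ (σ : Fin (n + 1) ≃ Fin (n + 1)) (G : SimpleGraph (Fin (n + 1))),
      P G → P (G.map σ.toEmbedding))
    (hisol : ∀ G : SimpleGraph (Fin (n + 1)), (∃ v, ∀ w, ¬ G.Adj v w) → ¬ P G)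
    (hex : ∃ G : SimpleGraph (Fin (n + 1)), P G)
    (hstar : ¬ P (Cone (⊥ : SimpleGraph (Fin n))))
    (hdeg : ∀ (d : ℕ) (K L : SimpleGraph (Fin n)), VertexTransitive K → VertexTransitive L →
      RegularOfDegree K d → RegularOfDegree L d → (P (Cone K) ↔ P (Cone L))) :
    Evasive P := by
  intro s hs
  rcases Nat.lt_or_ge n 2 with hn | hn
  · exfalso
    obtain ⟨G, hG⟩ := hex
    refine hstar (hmono _ _ ?_ hG)
    intro u v huv
    refine ⟨huv.ne, fun x y hx hy => ?_⟩
    exfalso
    have hxy : x = y := by
      apply Fin.ext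
      have := x.2
      have := y.2
      omega
    apply huv.ne
    rw [hx, hy, hxy]
  · by_contra hcon
    have hdec : Pool.Agent.H119R2.Kp.Dec ((n + 1).choose 2 - 1)
        (fun S : Finset (Pool.Agent.H98R2.Ev.EV (Fin (n + 1))) =>
          P (Pool.Agent.H98R2.Ev.toG S)) := by
      refine Pool.Agent.H119R2.Kp.dec_of_strategy _ P s hs fun G H hGH hPG => ?_
      by_contra hPH
      exact hcon ⟨G, H, hGH, hPG, hPH⟩
    have hGP : Pool.Agent.H119R2.Kp.GP (n + 1) ((n + 1).choose 2 - 1) P := ⟨hmono, hiso, hdec⟩
    refine Pool.Agent.W332.Kc.no_GP_cone hn hGP hisol hex ?_ ?_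
    · rw [PV_cone hiso]
      exact hstar
    · intro d G H h1 h2 h3 h4
      rw [PV_cone hiso, PV_cone hiso]
      exact hdeg d G H h1 h2 h3 h4

theorem regular_top (n : ℕ) : RegularOfDegree (⊤ : SimpleGraph (Fin n)) (n - 1) := by
  intro v
  have : (⊤ : SimpleGraph (Fin n)).neighborSet v = {v}ᶜ := by
    ext x
    simp [eq_comm]
  rw [this, Set.ncard_compl, Set.ncard_singleton, Nat.card_eq_fintype_card, Fintype.card_fin]

theorem regular_bot (n : ℕ) : RegularOfDegree (⊥ : SimpleGraph (Fin n)) 0 := by
  intro v
  have : (⊥ : SimpleGraph (Fin n)).neighborSet v = ∅ := by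
    ext x
    simp
  rw [this, Set.ncard_empty]

/-- **Evasiveness of cone degree properties, and of `k`-edge-connectivity for `2 ≤ k < N`.** -/
theorem result :
    (∀ (n : ℕ) (P : SimpleGraph (Fin (n + 1)) → Prop),
      (∀ G H : SimpleGraph (Fin (n + 1)), G ≤ H → P G → P H) →
      (∀ (σ : Fin (n + 1) ≃ Fin (n + 1)) (G : SimpleGraph (Fin (n + 1))),
        P G → P (G.map σ.toEmbedding)) →
      (∀ G : SimpleGraph (Fin (n + 1)), (∃ v, ∀ w, ¬ G.Adj v w) → ¬ P G) →
      (∃ G : SimpleGraph (Fin (n + 1)), P G) →
      ¬ P (Cone (⊥ : SimpleGraph (Fin n))) →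
      (∀ (d : ℕ) (K L : SimpleGraph (Fin n)), VertexTransitive K → VertexTransitive L →
        RegularOfDegree K d → RegularOfDegree L d → (P (Cone K) ↔ P (Cone L))) →
      Evasive P) ∧
    (∀ N k : ℕ, 2 ≤ k → k < N →
      Evasive (fun G : SimpleGraph (Fin N) => G.IsEdgeConnected k)) := by
  refine ⟨fun n P h1 h2 h3 h4 h5 h6 => cone_evasive n P h1 h2 h3 h4 h5 h6, ?_⟩
  intro N k hk hkN
  obtain ⟨n, rfl⟩ : ∃ n, N = n + 1 := ⟨N - 1, by omega⟩
  have hn : 1 ≤ n := by omega
  refine cone_evasive n _ ?_ ?_ ?_ ?_ ?_ ?_
  · intro G H hGH h u v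
    exact (h u v).mono hGH
  · intro σ G h u v s hs
    have h1 := h (σ.symm u) (σ.symm v) (s := Sym2.map σ.symm '' s) (by
      rw [(Sym2.map.injective σ.symm.injective).encard_image]
      exact hs)
    have hhom : ∀ a b : Fin (n + 1), (G.deleteEdges (Sym2.map σ.symm '' s)).Adj a b →
        ((G.map σ.toEmbedding).deleteEdges s).Adj (σ a) (σ b) := by
      intro a b hab
      rw [SimpleGraph.deleteEdges_adj] at hab ⊢
      refine ⟨(SimpleGraph.map_adj_apply (f := σ.toEmbedding)).2 hab.1, fun hmem => hab.2 ?_⟩
      refine ⟨_, hmem, ?_⟩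
      rw [Sym2.map_mk, Equiv.symm_apply_apply, Equiv.symm_apply_apply]
    let φ : G.deleteEdges (Sym2.map σ.symm '' s) →g (G.map σ.toEmbedding).deleteEdges s :=
      ⟨σ, fun {a b} hab => hhom a b hab⟩
    have h2 := h1.map φ
    have h3 : φ (σ.symm u) = u := σ.apply_symm_apply u
    have h4 : φ (σ.symm v) = v := σ.apply_symm_apply v
    rw [h3, h4] at h2
    exact h2
  · rintro G ⟨v, hv⟩ h
    have : Nontrivial (Fin (n + 1)) := Fin.nontrivial_iff_two_le.2 (by omega)
    classical
    have h1 := h.le_degree (u := v)
    have h2 : G.degree v = 0 := by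
      rw [SimpleGraph.degree, Finset.card_eq_zero, Finset.eq_empty_iff_forall_notMem]
      intro w hw
      rw [SimpleGraph.mem_neighborFinset] at hw
      exact hv w hw
    omega
  · refine ⟨Cone ⊤, (edge_cone hn _ (regular_top n)).2 (by omega)⟩
  · intro h
    have := (edge_cone hn _ (regular_bot n)).1 h
    omega
  · intro d K L _ _ hK hL
    rw [edge_cone hn K hK, edge_cone hn L hL]

end Pool.Agent.Results.MP_257582_lc.ConeDegrees
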