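import Mathlib
import Pool.Agent.W332.Kd.Thr2
import Pool.Agent.W332.Kd.Wr

set_option autoImplicit false

/-!
# Evasiveness of degree properties for every number of vertices (MP_257582_lc)

Let `n` be arbitrary (no prime power restriction) and let `P` be a non-trivial monotone
isomorphism-invariant property of graphs on `n` vertices that does not distinguish
vertex-transitive graphs of the same degree. Then `P` is evasive, in the form of the frozen
statement of the problem. The hypothesis holds for every property that does not distinguish regular
graphs of the same degree, in particular for every property that depends only on the degree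
sequence; thus minimum degree at least `k`, maximum degree at least `k`, having a subgraph of
minimum degree at least `k` (a non-empty `k`-core), having a subgraph of average degree at least
`x`, having spectral radius at least `x`, are all evasive for all `n` for which they are
non-trivial.

Proof.  For vertex-transitive graphs membership is given by a threshold degree `t`. If `P` is not
evasive, then for every group `G` of permutations of the vertices that is an extension of a
`p`-group by a cyclic group the Euler characteristic of the complex of the `G`-invariant
non-members is 1 (Smith, Lefschetz, Oliver; Kahn, Saks and Sturtevant). If `G` is transitive on the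
vertices and its orbits of pairs have the valencies `w₁, …, w_s`, this says that the coefficient of
`x ^ (t - 1)` in `∏ (1 - x ^ w_i) / (1 - x)` vanishes. For `n` odd, and for `n` even and `t` odd,
`G` cyclic and regular gives a contradiction; for `4 ∣ n` and `t` even, `G = Z_2 × Z_(n/2)`; for
`n ≡ 2 (mod 4)` and `t` even there is an odd prime power `Q ∣ n` that does not divide `t`, and the
wreath product of the elementary abelian group of order `Q` with the cyclic group of order `n / Q`
gives a contradiction.
-/

namespace Pool.Agent.Results.MP_257582_lc.RegularDegrees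

/-- Any two vertices are exchanged by an automorphism. -/
def VertexTransitive {n : ℕ} (G : SimpleGraph (Fin n)) : Prop :=
  ∀ u v : Fin n, ∃ φ : G ≃g G, φ u = v

/-- Every vertex has exactly `d` neighbours. -/
def RegularOfDegree {n : ℕ} (G : SimpleGraph (Fin n)) (d : ℕ) : Prop :=
  ∀ v : Fin n, (G.neighborSet v).ncard = d

/-- **Evasiveness of degree properties.** For every `n`, every non-trivial monotone
isomorphism-invariant property of graphs on `n` vertices that takes the same value on any two
vertex-transitive graphs of the same degree is evasive. -/
theorem result (n : ℕ) (P : SimpleGraph (Fin n) → Prop)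
    (hmono : ∀ G H : SimpleGraph (Fin n), G ≤ H → P G → P H)
    (hiso : ∀ (σ : Fin n ≃ Fin n) (G : SimpleGraph (Fin n)), P G → P (G.map σ.toEmbedding))
    (hex : ∃ G : SimpleGraph (Fin n), P G)
    (hne : ∃ G : SimpleGraph (Fin n), ¬ P G)
    (hdeg : ∀ (d : ℕ) (G H : SimpleGraph (Fin n)), VertexTransitive G → VertexTransitive H →
      RegularOfDegree G d → RegularOfDegree H d → (P G ↔ P H)) :
    ∀ s : Finset (Sym2 (Fin n)) → SimpleGraph (Fin n) → Sym2 (Fin n),
      (∀ (Q : Finset (Sym2 (Fin n))) (G H : SimpleGraph (Fin n)),
          (∀ e ∈ Q, (e ∈ G.edgeSet ↔ e ∈ H.edgeSet)) → s Q G = s Q H) →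
      ∃ G H : SimpleGraph (Fin n),
        (∀ e ∈ (fun Q : Finset (Sym2 (Fin n)) => insert (s Q G) Q)^[n.choose 2 - 1]
              (∅ : Finset (Sym2 (Fin n))),
            (e ∈ G.edgeSet ↔ e ∈ H.edgeSet)) ∧ P G ∧ ¬ P H := by
  intro s hs
  rcases Nat.lt_or_ge n 2 with hn | hn
  · exfalso
    obtain ⟨G, hG⟩ := hex
    obtain ⟨H, hH⟩ := hne
    apply hH
    have : G = H := by
      ext u v
      have : u = v := by
        apply Fin.ext
        have := u.2
        have := v.2
        omega
      rw [this]
      simp
    rwa [← this]
  · by_contra hcon
    have hdec : Pool.Agent.H119R2.Kp.Dec (n.choose 2 - 1)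
        (fun S : Finset (Pool.Agent.H98R2.Ev.EV (Fin n)) => P (Pool.Agent.H98R2.Ev.toG S)) := by
      refine Pool.Agent.H119R2.Kp.dec_of_strategy _ P s hs fun G H hGH hPG => ?_
      by_contra hPH
      exact hcon ⟨G, H, hGH, hPG, hPH⟩
    have hGP : Pool.Agent.H119R2.Kp.GP n (n.choose 2 - 1) P := ⟨hmono, hiso, hdec⟩
    obtain ⟨t, ht, hthr⟩ := Pool.Agent.W332.Kd.threshold hn hmono hex hne
      (fun d G H h1 h2 h3 h4 => hdeg d G H h1 h2 h3 h4)
    exact Pool.Agent.W332.Kd.no_GP hn hGP t ht hthr

end Pool.Agent.Results.MP_257582_lc.RegularDegrees
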